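import Pool.Agent.W48.KS.Final

/-!
# MP_b5f63d_co: spherical codes of every angle beyond Kabatiansky and Levenshtein

For every angle `0 < θ < π / 2` the exponential growth rate of the largest spherical codes of angle
`θ` is bounded by an explicit functional of an arbitrary finitely supported probability
distribution; distributions with two atoms give a closed formula, and a rate strictly smaller than
the Kabatiansky-Levenshtein bound at every angle. For `θ = π / 3` this gives the bound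
`2 ^ (0.39663 d)` for the kissing numbers.
-/

open Filter MeasureTheory

namespace Pool.Agent.Results.MP_b5f63d_co.AllAngles

open Pool.Agent.H613R2.LP

/-- `C` is a spherical code of angle `θ`: unit vectors of `ℝⁿ`, any two distinct ones with inner
product at most `cos θ`. -/
def IsCode {n : ℕ} (θ : ℝ) (C : Finset (EuclideanSpace ℝ (Fin n))) : Prop :=
  (∀ x ∈ C, ‖x‖ = 1) ∧ ∀ x ∈ C, ∀ y ∈ C, x ≠ y → inner ℝ x y ≤ Real.cos θ

/-- `A n θ`: the largest number of points of a spherical code of angle `θ` in `ℝⁿ`. -/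
noncomputable def A (n : ℕ) (θ : ℝ) : ℕ :=
  sSup {k | ∃ C : Finset (EuclideanSpace ℝ (Fin n)), IsCode θ C ∧ C.card = k}

/-- `rate θ = limsup (1 / n) log (A n θ)` (natural logarithm). -/
noncomputable def rate (θ : ℝ) : ℝ := limsup (fun n : ℕ => Real.log (A n θ) / n) atTop

/-- `g ν = ((ν + 1) / 2) log ((ν + 1) / 2) - ((ν - 1) / 2) log ((ν - 1) / 2)`; the
Kabatiansky-Levenshtein bound says `rate θ ≤ g (1 / sin θ)`. -/
noncomputable def g (ν : ℝ) : ℝ :=
  (ν + 1) / 2 * Real.log ((ν + 1) / 2) - (ν - 1) / 2 * Real.log ((ν - 1) / 2)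

theorem gH_eq {c : ℝ} (hc : 0 < c) : Pool.Agent.W259.GP.gH c = g (√(1 + 2 * c)) := by
  have h1 : 1 < √(1 + 2 * c) := by
    rw [Real.lt_sqrt zero_le_one]
    linarith
  set ν := √(1 + 2 * c) with hν
  have e1 : 0 < ν - 1 := by linarith
  have e2 : 0 < ν + 1 := by linarith
  unfold Pool.Agent.W259.GP.gH Pool.Agent.W259.GP.rr g
  rw [← hν]
  have h2 : 1 - (ν - 1) / (ν + 1) = 2 / (ν + 1) := by field_simp; ring
  rw [h2, Real.log_div two_ne_zero e2.ne', Real.log_div e1.ne' e2.ne',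
    Real.log_div e2.ne' two_ne_zero, Real.log_div e1.ne' two_ne_zero]
  field_simp
  ring

theorem ph_eq {p : ℝ} (hp : 1 < p) : Pool.Agent.W48.KS.ph ((p - 1) / 2) = √(1 - 1 / p) := by
  unfold Pool.Agent.W48.KS.ph
  congr 1
  have h0 : p ≠ 0 := by linarith
  have e1 : 1 + 2 * ((p - 1) / 2) = p := by ring
  have e2 : 2 * ((p - 1) / 2) = p - 1 := by ring
  rw [e1, e2, sub_div, div_self h0]

theorem KL_eq {θ : ℝ} (hθ : 0 < Real.sin θ) : Pool.Agent.W48.KS.KL θ = g (1 / Real.sin θ) := by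
  unfold Pool.Agent.W48.KS.KL g
  have h1 : (1 / Real.sin θ + 1) / 2 = (1 + Real.sin θ) / (2 * Real.sin θ) := by field_simp
  have h2 : (1 / Real.sin θ - 1) / 2 = (1 - Real.sin θ) / (2 * Real.sin θ) := by field_simp
  rw [h1, h2]

theorem result :
    (∀ θ : ℝ, 0 < θ → θ < Real.pi / 2 →
      (∀ (m : ℕ) (w p : Fin m → ℝ), (∀ j, 0 < w j) → ∑ j, w j = 1 → (∀ j, 1 < p j) →
        Real.cos θ < ∑ j, w j * √(1 - 1 / p j) →
        rate θ ≤ 1 - Real.log 2
          - 1 / 2 * ∫ t in (0 : ℝ)..1, Real.log (∑ j, w j / (p j - t ^ 2))) ∧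
      (∀ u v w : ℝ, 1 < u → 1 < v → 0 < w → w < 1 →
        Real.cos θ < w * √(1 - 1 / u ^ 2) + (1 - w) * √(1 - 1 / v ^ 2) →
        rate θ ≤ g u + g v - g (√((1 - w) * u ^ 2 + w * v ^ 2))) ∧
      rate θ < g (1 / Real.sin θ)) ∧
    (∀ᶠ d : ℕ in atTop, (kissing d : ℝ) ≤ (2 : ℝ) ^ ((39663 / 100000 : ℝ) * d)) ∧
    limsup (fun d : ℕ => Real.logb 2 (kissing d) / d) atTop ≤ 39663 / 100000 := by
  refine ⟨fun θ h0 h1 => ?_, ?_⟩
  · have hcos : Real.cos θ < 1 := by
      have := Real.strictAntiOn_cos (Set.left_mem_Icc.mpr Real.pi_pos.le)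
        ⟨h0.le, by linarith [Real.pi_pos]⟩ h0
      rwa [Real.cos_zero] at this
    have hsin : 0 < Real.sin θ := Real.sin_pos_of_pos_of_lt_pi h0 (by linarith [Real.pi_pos])
    refine ⟨?_, ?_, ?_⟩
    · intro m w p hw hsum hp hE
      obtain _ | m := m
      · simp at hsum
      · have := Pool.Agent.W48.KS.rate_mx (c := fun j => (p j - 1) / 2) hw hsum
          (fun j => by have := hp j; linarith) hcos (by
            simpa only [ph_eq (hp _)] using hE)
        refine this.trans (le_of_eq ?_)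
        unfold Pool.Agent.W48.KS.mx
        have e : ∀ j, 1 + 2 * ((p j - 1) / 2) = p j := fun j => by ring
        simp only [e]
    · intro u v w hu hv hw0 hw1 hE
      have hu2 : 1 < u ^ 2 := by nlinarith
      have hv2 : 1 < v ^ 2 := by nlinarith
      have ha : 0 < (u ^ 2 - 1) / 2 := by linarith
      have hb : 0 < (v ^ 2 - 1) / 2 := by linarith
      have hw1' : 0 < 1 - w := by linarith
      have := Pool.Agent.W48.KS.rate_tm ha hb hw0 hw1 hcos
        (by rw [ph_eq hu2, ph_eq hv2]; exact hE)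
      refine this.trans (le_of_eq ?_)
      unfold Pool.Agent.W48.KS.tm
      rw [gH_eq ha, gH_eq hb, gH_eq (by positivity)]
      have e1 : 1 + 2 * ((u ^ 2 - 1) / 2) = u ^ 2 := by ring
      have e2 : 1 + 2 * ((v ^ 2 - 1) / 2) = v ^ 2 := by ring
      have e3 : 1 + 2 * ((1 - w) * ((u ^ 2 - 1) / 2) + w * ((v ^ 2 - 1) / 2))
          = (1 - w) * u ^ 2 + w * v ^ 2 := by ring
      rw [e1, e2, e3, Real.sqrt_sq (by linarith), Real.sqrt_sq (by linarith)]
    · obtain ⟨a, b, w, ha, hb, hw0, hw1, hE, hlt⟩ := Pool.Agent.W72.KS.Strict.main θ h0 h1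
      rw [← KL_eq hsin]
      exact (Pool.Agent.W48.KS.rate_tm ha hb hw0 hw1 hcos hE).trans_lt hlt
  · have := kissing_of_codes (κ := 39663 / 100000) (by norm_num) Pool.Agent.W48.KS.codes_kiss
    exact this.2

end Pool.Agent.Results.MP_b5f63d_co.AllAngles
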